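import Pool.Agent.Q82.BB.Fin

/-!
Schwartz class solutions of the bad Boussinesq equation which are unbounded near two points of the
line `t = T`.
-/

set_option autoImplicit false

open MeasureTheory Filter Topology Set

namespace Pool.Agent.Results.MP_de0dde_an.TwoPointBlowUp

/-- The bad Boussinesq equation at the point `(x, t)`. -/
def BadBoussinesq (u : ℝ → ℝ → ℝ) (x t : ℝ) : Prop :=
  iteratedDeriv 2 (fun t => u x t) t =
    iteratedDeriv 2 (fun x => u x t) x + iteratedDeriv 2 (fun x => u x t ^ 2) x +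
      iteratedDeriv 4 (fun x => u x t) x

/-- A Schwartz class solution on `ℝ × [0, T)`. It is smooth in the larger open set `ℝ × (-1, T)`, so
that all derivatives at `t = 0` are ordinary ones. -/
def SchwartzSolution (T : ℝ) (u : ℝ → ℝ → ℝ) : Prop :=
  (∀ n : ℕ, ContDiffOn ℝ n (fun q : ℝ × ℝ => u q.1 q.2) (univ ×ˢ Ioo (-1) T)) ∧
  (∀ x : ℝ, ∀ t ∈ Ico 0 T, BadBoussinesq u x t) ∧
  ∀ (N : ℕ) (τ : ℝ), τ ∈ Ico 0 T → ∃ C : ℝ, ∀ x : ℝ, ∀ t ∈ Icc 0 τ,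
    ∑ i ∈ Finset.range (N + 1), (1 + |x|) ^ N * |iteratedDeriv i (fun x => u x t) x| ≤ C

/-- `u` is unbounded near the point `(y, T)`. -/
def UnboundedNear (T : ℝ) (u : ℝ → ℝ → ℝ) (y : ℝ) : Prop :=
  ∀ ε : ℝ, 0 < ε → ∀ M : ℝ, ∃ x t : ℝ, |x - y| < ε ∧ 0 ≤ t ∧ T - ε < t ∧ t < T ∧ M < |u x t|

theorem result (T : ℝ) (hT : 0 < T) :
    ∃ (u : ℝ → ℝ → ℝ) (x₁ x₂ : ℝ), SchwartzSolution T u ∧ x₁ ≠ x₂ ∧ UnboundedNear T u x₁ ∧
      UnboundedNear T u x₂ := by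
  obtain ⟨u, h1, h2, h3, -, h5⟩ := Pool.Agent.Q82.BB.main_all T 0 hT
  have key : ∀ x : ℝ, (x = 1 ∨ x = -1) → UnboundedNear T u x := by
    intro x hx ε hε M
    have h := h5 x hx
    have e1 : ∀ᶠ t in 𝓝[<] T, M < iteratedDeriv 0 (fun x => u x t) x := h.eventually_gt_atTop M
    have e2 : ∀ᶠ t in 𝓝[<] T, t ∈ Ioo (max 0 (T - ε)) T :=
      Ioo_mem_nhdsLT (max_lt hT (by linarith))
    obtain ⟨t, ht1, ht2⟩ := (e1.and e2).exists
    refine ⟨x, t, by simpa using hε, (le_max_left _ _).trans ht2.1.le,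
      lt_of_le_of_lt (le_max_right _ _) ht2.1, ht2.2, ?_⟩
    rw [iteratedDeriv_zero] at ht1
    exact lt_of_lt_of_le ht1 (le_abs_self _)
  refine ⟨u, 1, -1, ⟨h1, fun x t ht => h2 x t ⟨by linarith [ht.1], ht.2⟩, ?_⟩, by norm_num,
    key 1 (Or.inl rfl), key (-1) (Or.inr rfl)⟩
  intro N τ hτ
  obtain ⟨C, hC⟩ := h3 N τ hτ.2
  refine ⟨∑ i ∈ Finset.range (N + 1), C, fun x t ht => Finset.sum_le_sum fun i hi => ?_⟩
  exact hC x t ht i (Nat.lt_succ_iff.1 (Finset.mem_range.1 hi))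

end Pool.Agent.Results.MP_de0dde_an.TwoPointBlowUp
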